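import Pool.Agent.Q78.WI.Stm

/-!
# Project WI, job C1: derivative of `t ↦ T_t g` on the domain of the generator
-/

set_option autoImplicit false

open MeasureTheory ProbabilityTheory Filter Topology Set
open scoped NNReal InnerProductSpace Matrix

namespace Pool.Agent.Q184.WI

open Pool.Agent.Q78.WI

universe u

/-- JOB C1 -/
theorem c1 : S_C1.{u} := by
  intro H _ _ _ T hT g y hg
  have hcomp : ∀ s t, 0 ≤ s → 0 ≤ t → ∀ z, T (s + t) z = T s (T t z) := by
    intro s t hs ht z
    rw [hT.add s t hs ht]
    rfl
  have h1 : ∀ t, 0 ≤ t → Gen T (T t g) (T t y) := by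
    intro t ht
    have h2 : Tendsto (fun s : ℝ => T t (s⁻¹ • (T s g - g))) (𝓝[>] 0) (𝓝 (T t y)) :=
      ((T t).continuous.tendsto y).comp hg
    refine h2.congr' ?_
    filter_upwards [self_mem_nhdsWithin] with s hs
    have hs' : 0 < s := hs
    rw [map_smul, map_sub, ← hcomp t s ht hs'.le, ← hcomp s t hs'.le ht, add_comm]
  refine ⟨h1, ?_⟩
  have hcont : ∀ z : H, Continuous fun s => T (max s 0) z := by
    intro z
    have h2 : Continuous fun s : ℝ => max s 0 := continuous_id.max continuous_const
    exact (hT.cont z).comp_continuous h2 fun s => le_max_right s 0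
  have hright : ∀ x, 0 ≤ x → HasDerivWithinAt (fun s => T (max s 0) g) (T x y) (Ici x) x := by
    intro x hx
    rw [hasDerivWithinAt_iff_tendsto_slope, Set.Ici_sdiff_left]
    have h2 : Tendsto (fun s : ℝ => s - x) (𝓝[>] x) (𝓝[>] 0) := by
      refine tendsto_nhdsWithin_iff.2 ⟨?_, ?_⟩
      · have : Tendsto (fun s : ℝ => s - x) (𝓝 x) (𝓝 (x - x)) :=
          (continuous_id.sub continuous_const).tendsto x
        rw [sub_self] at this
        exact this.mono_left nhdsWithin_le_nhds
      · filter_upwards [self_mem_nhdsWithin] with s hs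
        have hs' : x < s := hs
        exact sub_pos.2 hs'
    have h3 := (h1 x hx).comp h2
    refine h3.congr' ?_
    filter_upwards [self_mem_nhdsWithin] with s hs
    have hs' : x < s := hs
    have e1 : max s 0 = s := max_eq_left (hx.trans hs'.le)
    have e2 : max x 0 = x := max_eq_left hx
    simp only [Function.comp_apply, slope_def_module, e1, e2]
    rw [← hcomp (s - x) x (sub_pos.2 hs').le hx, sub_add_cancel]
  have hint : ∀ t, HasDerivAt (fun s => ∫ r in (0 : ℝ)..s, T (max r 0) y) (T (max t 0) y) t :=
    fun t => ((hcont y).integral_hasStrictDerivAt 0 t).hasDerivAt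
  have hkey : ∀ s, 0 ≤ s → T s g = g + ∫ r in (0 : ℝ)..s, T (max r 0) y := by
    intro s hs
    have h2 := constant_of_has_deriv_right_zero
      (f := fun s => T (max s 0) g - ∫ r in (0 : ℝ)..s, T (max r 0) y) (a := 0) (b := s)
      (by
        refine ((hcont g).sub ?_).continuousOn
        exact continuous_iff_continuousAt.2 fun t => (hint t).continuousAt)
      (by
        intro x hx
        have h3 := (hright x hx.1).sub (hint x).hasDerivWithinAt
        rw [max_eq_left hx.1, sub_self] at h3
        exact h3) s ⟨hs, le_rfl⟩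
    simp only [max_eq_left hs, max_self, intervalIntegral.integral_same, sub_zero] at h2
    rw [hT.zero] at h2
    rw [sub_eq_iff_eq_add] at h2
    rw [h2]
    rfl
  intro t ht
  have h2 : HasDerivWithinAt (fun s => g + ∫ r in (0 : ℝ)..s, T (max r 0) y) (T (max t 0) y)
      (Ici 0) t := ((hint t).const_add g).hasDerivWithinAt
  rw [max_eq_left ht] at h2
  exact h2.congr (fun s hs => hkey s hs) (hkey t ht)

end Pool.Agent.Q184.WI
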